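import Pool.Agent.TDC.AllN
import Pool.Agent.TDC.VNBr
import Pool.Agent.TDC.NSchA

/-!
# MP_f0f507_ag, Q1: no toric embedding computes the tropical Dolbeault cohomology

`K ⊇ ℂ` is a non-trivially valued non-archimedean field with residue field `ℂ`, `X` an integral
`K`-scheme with function field `K(E)(t_1, …, t_m)`, where `E` is the elliptic curve
`y² = x³ + 1`, and `n = m + 1 = dim X`. For every closed embedding `φ` of `X` in a toric variety
`trop_φ^* : H_c^{n,n}(Trop_φ(X)) → H_c^{n,n}(X^an)` is not surjective; if `X^an` is compact then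
`trop_φ^* : H^{n,n}(Trop_φ(X)) → H^{n,n}(X^an)` is not surjective either.
-/

open TDC AlgebraicGeometry CategoryTheory

namespace Pool.Agent.Results.MP_f0f507_ag.NoToricEmbedding

/-- (A) For every `K`, `X` as above and every closed embedding in a toric variety (`NoSurj`).
(B) There is such a field `K`, complete and algebraically closed, and over it for every `m ≥ 0` such a
scheme `X`, affine of finite type. -/
theorem result :
    (∀ (K : Type) [NontriviallyNormedField K] [IsUltrametricDist K] (c : ℂ →+* K), ResC c →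
      (Set.range fun a : K => ‖a‖).Countable →
      ∀ (X : Scheme.{0}) [IsIntegral X] (s : X ⟶ Spec (.of K)) (m : ℕ)
        (x y : FunF X) (t : Fin m → (FunF X)ˣ), EFunX s m x y t → NoSurj s (m + 1)) ∧
    ∃ (K : Type) (_ : NontriviallyNormedField K) (_ : IsUltrametricDist K) (_ : CompleteSpace K)
      (c : ℂ →+* K), IsAlgClosed K ∧ ResC c ∧ (Set.range fun a : K => ‖a‖).Countable ∧
      ∀ m : ℕ, ∃ (X : Scheme.{0}) (s : X ⟶ Spec (.of K)) (_ : IsIntegral X),
        IsAffine X ∧ LocallyOfFiniteType s ∧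
        (∃ (x y : FunF X) (t : Fin m → (FunF X)ˣ), EFunX s m x y t) ∧ NoSurj s (m + 1) := by
  refine ⟨?_, ?_⟩
  · intro K _ _ c hc hcount X _ s m x y t hE
    exact noSurj_of cl_NsTro cl_NsFin K c hc hcount X s m x y t hE
  · obtain ⟨K, i1, i2, i3, c, hac, hc, hcount⟩ := cl_NKac
    refine ⟨K, i1, i2, i3, c, hac, hc, hcount, fun m => ?_⟩
    obtain ⟨X, s, i4, ha, _, hf, _, x, y, t, hE⟩ := thm_NSchA K m
    exact ⟨X, s, i4, ha, hf, ⟨x, y, t, hE⟩,
      noSurj_of cl_NsTro cl_NsFin K c hc hcount X s m x y t hE⟩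

end Pool.Agent.Results.MP_f0f507_ag.NoToricEmbedding
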