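import Pool.Agent.TDC.All
import Pool.Agent.TDC.VBr

/-!
# MP_f0f507_ag: rational varieties in the top bidegree

`K` is a non-trivially valued non-archimedean field with countable value group, `X` an integral
scheme over `K` whose function field is `K(t_1, …, t_n)`, `n = m + 1 ≥ 1`.
-/

open scoped Topology
open MeasureTheory AlgebraicGeometry CategoryTheory

namespace Pool.Agent.Results.MP_f0f507_ag.RationalTopDegree

open TDC

/-- `κ(η)`, the function field of `X` -/
noncomputable abbrev FunF (X : Scheme.{0}) [IsIntegral X] : Type := X.residueField (genericPoint X)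

/-- `t` is a transcendence basis of the function field of `X` over `K` which generates it -/
def RatX {K : Type} [NormedField K] {X : Scheme.{0}} [IsIntegral X] (s : X ⟶ Spec (.of K)) (n : ℕ)
    (t : Fin n → (FunF X)ˣ) : Prop :=
  @RatN K (FunF X) _ _ (kmap s (genericPoint X)).toAlgebra n t

/-- the point of `X^an` over the generic point given by an absolute value on the function field -/
noncomputable def gpt {K : Type} [NormedField K] {X : Scheme.{0}} [IsIntegral X] (s : X ⟶ Spec (.of K))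
    (v : Pt (kmap s (genericPoint X))) : An s := ⟨genericPoint X, v⟩

/-- `ω₀ = t^*(b d'x_1 ∧ … ∧ d'x_n ∧ d''x_1 ∧ … ∧ d''x_n)`: the pull-back of a superform of type
`(n,n)` on `ℝ^n` by `log|t|` at the points over the generic point, `0` at the others -/
def IsTropV {K : Type} [NormedField K] {X : Scheme.{0}} [IsIntegral X] {s : X ⟶ Spec (.of K)} {n : ℕ}
    (t : Fin n → (FunF X)ˣ) (b : (Fin n → ℝ) → ℝ) (ω₀ : FamV s n n) : Prop :=
  (∀ v : Pt (kmap s (genericPoint X)), ω₀ (gpt s v) = pullV v t (top b)) ∧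
    ∀ x : An s, x.pt ≠ genericPoint X → ω₀ x = 0

/-- `H_c^{n,n}(X^an) ≅ ℝ` for every integral `X` over `K` with function field `K(t_1, …, t_n)`, `n = m + 1`.
The isomorphism maps the class of `t^*(b d'x_1 ∧ … ∧ d''x_n)` to `∫ b`. If `X^an` is compact, the same
holds for `H^{n,n}(X^an)`. -/
theorem result :
    ∀ (K : Type) [NontriviallyNormedField K] [IsUltrametricDist K],
      (Set.range fun a : K => ‖a‖).Countable →
      ∀ (X : Scheme.{0}) [IsIntegral X] (s : X ⟶ Spec (.of K)) (m : ℕ)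
        (t : Fin (m + 1) → (FunF X)ˣ), RatX s (m + 1) t →
        (∀ b : (Fin (m + 1) → ℝ) → ℝ, ContDiff ℝ (⊤ : ℕ∞) b → HasCompactSupport b →
          ∃ ω₀ : FamV s (m + 1) (m + 1), IsTropV t b ω₀) ∧
        (∃ e : HVc s (m + 1) (m + 1) ≃ₗ[ℝ] ℝ,
          ∀ (b : (Fin (m + 1) → ℝ) → ℝ) (ω₀ : FamV s (m + 1) (m + 1)),
            ContDiff ℝ (⊤ : ℕ∞) b → HasCompactSupport b → IsTropV t b ω₀ →
            ∃ h : ω₀ ∈ closedVc s (m + 1) (m + 1), e (Coh.mk _ ω₀ h) = ∫ u, b u) ∧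
        (CompactSpace (An s) → ∃ e : HV s (m + 1) (m + 1) ≃ₗ[ℝ] ℝ,
          ∀ (b : (Fin (m + 1) → ℝ) → ℝ) (ω₀ : FamV s (m + 1) (m + 1)),
            ContDiff ℝ (⊤ : ℕ∞) b → HasCompactSupport b → IsTropV t b ω₀ →
            ∃ h : ω₀ ∈ closedV s (m + 1) (m + 1), e (Coh.mk _ ω₀ h) = ∫ u, b u) := by
  intro K _ _ hcount X _ s m t hrat
  obtain ⟨⟨e, he⟩, h2⟩ := cl_CohC K X s m t hcount hrat
  refine ⟨?_, ?_, ?_⟩
  · intro b hb hc
    let _ : Algebra K (X.residueField (genericPoint X)) := (kmap s (genericPoint X)).toAlgebra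
    have htr : TrLe K (X.residueField (genericPoint X)) (m + 1) :=
      (cl_TowR.1 K _ (m + 1) t hrat).1
    obtain ⟨ω₀, h, -, -⟩ := cl_TroF K X s (m + 1) t htr b hb hc
    exact ⟨(famVA s (m + 1) (m + 1)).symm ω₀, h⟩
  · obtain ⟨f, hf⟩ := hVc_equiv s (m + 1) (m + 1)
    refine ⟨f.trans e, fun b ω₀ hb hc ht => ?_⟩
    obtain ⟨h, h3⟩ := he b (famVA s (m + 1) (m + 1) ω₀) hb hc ht
    refine ⟨h, ?_⟩
    obtain ⟨h', h4⟩ := hf ω₀ h
    rw [LinearEquiv.trans_apply, h4]
    exact h3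
  · intro hcomp
    obtain ⟨e, he⟩ := h2 hcomp
    obtain ⟨f, hf⟩ := hV_equiv s (m + 1) (m + 1)
    refine ⟨f.trans e, fun b ω₀ hb hc ht => ?_⟩
    obtain ⟨h, h3⟩ := he b (famVA s (m + 1) (m + 1) ω₀) hb hc ht
    refine ⟨h, ?_⟩
    obtain ⟨h', h4⟩ := hf ω₀ h
    rw [LinearEquiv.trans_apply, h4]
    exact h3

end Pool.Agent.Results.MP_f0f507_ag.RationalTopDegree
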