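import Pool.Agent.TDC.TopV
import Pool.Agent.TDC.InstV

/-!
# MP_f0f507_ag: toric varieties in the top bidegree

`K` is a non-trivially valued non-archimedean field with countable value group, `X` the toric
variety over `K` of a fan `Δ` in dimension `n = m + 1 ≥ 1`, `T : X^an → N_ℝ(Δ)` its tropicalization
map. The pull-back by `T` is an isomorphism of the cohomology groups of superforms in bidegree
`(n,n)`, with arbitrary and with compact supports.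
-/

open scoped Topology
open AlgebraicGeometry CategoryTheory

namespace Pool.Agent.Results.MP_f0f507_ag.ToricTopDegree

open TDC

/-- The tropicalization map `T` of a toric variety exists, is unique and continuous; the pull-back
`T^*` maps forms to forms and commutes with `d''`; in bidegree `(n,n)` it is an isomorphism
`H^{n,n}(N_ℝ(Δ)) ≅ H^{n,n}(X^an)` and `H_c^{n,n}(N_ℝ(Δ)) ≅ H_c^{n,n}(X^an)`; the group
`H_c^{n,n}(X^an)` has dimension `1`, the group `H^{n,n}(X^an)` has dimension `1` if the fan is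
complete and `0` if not. The varieties `𝔾_m^n`, `𝔸^n`, `ℙ^n` are examples. -/
theorem result :
    (∀ (K : Type) [NontriviallyNormedField K] [IsUltrametricDist K],
      (Set.range fun a : K => ‖a‖).Countable →
      ∀ (m : ℕ) (Δ : Fan (m + 1)) (X : Scheme.{0}) [IsIntegral X] (s : X ⟶ Spec (.of K))
        (τ : ToricV Δ s),
        (∃ T, IsTropV τ T) ∧
        ∀ (T : An s → NR Δ) (hT : IsTropV τ T),
          (∀ T', IsTropV τ T' → T' = T) ∧ Continuous T ∧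
          (∀ (p q : ℕ) (ω : FamTV Δ p q), IsFormTV ω → IsFormV (tropV τ T hT ω)) ∧
          (∀ (p q : ℕ) (η : FamTV Δ p q) (ω : FamTV Δ p (q + 1)), IsDbarTV η ω →
            IsDbarV (tropV τ T hT η) (tropV τ T hT ω)) ∧
          IsoBy (closedTV Δ (m + 1) (m + 1)) (exactTV Δ (m + 1) (m + 1))
            (closedV s (m + 1) (m + 1)) (exactV s (m + 1) (m + 1)) (tropV τ T hT) ∧
          IsoBy (closedTVc Δ (m + 1) (m + 1)) (exactTVc Δ (m + 1) (m + 1))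
            (closedVc s (m + 1) (m + 1)) (exactVc s (m + 1) (m + 1)) (tropV τ T hT) ∧
          OneDim (closedVc s (m + 1) (m + 1)) (exactVc s (m + 1) (m + 1)) ∧
          (Δ.Complete → OneDim (closedV s (m + 1) (m + 1)) (exactV s (m + 1) (m + 1))) ∧
          (¬ Δ.Complete → ZeroDim (closedV s (m + 1) (m + 1)) (exactV s (m + 1) (m + 1)))) ∧
    (∀ (K : Type) [NontriviallyNormedField K] [IsUltrametricDist K],
      (Set.range fun a : K => ‖a‖).Countable → ∀ m : ℕ,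
      (IsIntegral (GmK K (m + 1)) ∧
        (∃ Δ : Fan (m + 1), ¬ Δ.Complete ∧ Nonempty (ToricV Δ (GmKs K (m + 1)))) ∧
        OneDim (closedVc (GmKs K (m + 1)) (m + 1) (m + 1))
          (exactVc (GmKs K (m + 1)) (m + 1) (m + 1)) ∧
        ZeroDim (closedV (GmKs K (m + 1)) (m + 1) (m + 1))
          (exactV (GmKs K (m + 1)) (m + 1) (m + 1))) ∧
      (IsIntegral (AfK K (m + 1)) ∧
        (∃ Δ : Fan (m + 1), ¬ Δ.Complete ∧ Nonempty (ToricV Δ (AfKs K (m + 1)))) ∧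
        OneDim (closedVc (AfKs K (m + 1)) (m + 1) (m + 1))
          (exactVc (AfKs K (m + 1)) (m + 1) (m + 1)) ∧
        ZeroDim (closedV (AfKs K (m + 1)) (m + 1) (m + 1))
          (exactV (AfKs K (m + 1)) (m + 1) (m + 1))) ∧
      (IsIntegral (PrK K (m + 1)) ∧
        (∃ Δ : Fan (m + 1), Δ.Complete ∧ Nonempty (ToricV Δ (PrKs K (m + 1)))) ∧
        OneDim (closedVc (PrKs K (m + 1)) (m + 1) (m + 1))
          (exactVc (PrKs K (m + 1)) (m + 1) (m + 1)) ∧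
        OneDim (closedV (PrKs K (m + 1)) (m + 1) (m + 1))
          (exactV (PrKs K (m + 1)) (m + 1) (m + 1)))) := by
  refine ⟨topV, ?_⟩
  intro K _ _ hK m
  obtain ⟨⟨i1, Δ₁, h1, ⟨τ₁⟩⟩, ⟨i2, Δ₂, h2, ⟨τ₂⟩⟩, ⟨i3, Δ₃, h3, ⟨τ₃⟩⟩⟩ := instV K (m + 1)
  obtain ⟨⟨T₁, hT₁⟩, k1⟩ := topV K hK m Δ₁ _ (GmKs K (m + 1)) τ₁
  obtain ⟨⟨T₂, hT₂⟩, k2⟩ := topV K hK m Δ₂ _ (AfKs K (m + 1)) τ₂
  obtain ⟨⟨T₃, hT₃⟩, k3⟩ := topV K hK m Δ₃ _ (PrKs K (m + 1)) τ₃
  obtain ⟨-, -, -, -, -, -, a1, -, b1⟩ := k1 T₁ hT₁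
  obtain ⟨-, -, -, -, -, -, a2, -, b2⟩ := k2 T₂ hT₂
  obtain ⟨-, -, -, -, -, -, a3, b3, -⟩ := k3 T₃ hT₃
  exact ⟨⟨i1, ⟨Δ₁, h1 m.succ_pos, ⟨τ₁⟩⟩, a1, b1 (h1 m.succ_pos)⟩,
    ⟨i2, ⟨Δ₂, h2 m.succ_pos, ⟨τ₂⟩⟩, a2, b2 (h2 m.succ_pos)⟩,
    ⟨i3, ⟨Δ₃, h3, ⟨τ₃⟩⟩, a3, b3 h3⟩⟩

end Pool.Agent.Results.MP_f0f507_ag.ToricTopDegree
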